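import Pool.Agent.K1H41.SL.Stm

/-! Assembly: an `n`-central polynomial which is a semi-invariant of the affine group. -/

set_option autoImplicit false

namespace Pool.Agent.K1H41.SL

open Pool.Agent.K1H41.NF Matrix

section

variable {K : Type} [Field K] {n : ℕ}

theorem ev_add (f g : FreeAlgebra K (Fin 2)) (X : Fin 2 → Matrix (Fin n) (Fin n) K) :
    ev (f + g) X = ev f X + ev g X := by
  unfold ev
  rw [map_add]

theorem ev_sub (f g : FreeAlgebra K (Fin 2)) (X : Fin 2 → Matrix (Fin n) (Fin n) K) :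
    ev (f - g) X = ev f X - ev g X := by
  unfold ev
  rw [map_sub]

theorem ev_mul (f g : FreeAlgebra K (Fin 2)) (X : Fin 2 → Matrix (Fin n) (Fin n) K) :
    ev (f * g) X = ev f X * ev g X := by
  unfold ev
  rw [map_mul]

theorem ev_neg (f : FreeAlgebra K (Fin 2)) (X : Fin 2 → Matrix (Fin n) (Fin n) K) :
    ev (-f) X = -ev f X := by
  unfold ev
  rw [map_neg]

/-- the commutator of two polynomials -/
noncomputable def brp (p q : FreeAlgebra K (Fin 2)) : FreeAlgebra K (Fin 2) := p * q - q * p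

theorem ev_brp (p q : FreeAlgebra K (Fin 2)) (X : Fin 2 → Matrix (Fin n) (Fin n) K) :
    ev (brp p q) X = br (ev p X) (ev q X) := by
  unfold brp br
  rw [ev_sub, ev_mul, ev_mul]

theorem ev_z (i : Fin 2) (X Y : Matrix (Fin n) (Fin n) K) :
    ev (brp (FreeAlgebra.ι K i) (brp (FreeAlgebra.ι K 0) (FreeAlgebra.ι K 1))) ![X, Y]
      = br (![X, Y] i) (br X Y) := by
  rw [ev_brp, ev_brp, ev_ι, ev_ι, ev_ι]
  rfl

/-- an affine change does not change the commutator -/
theorem br_aff (a b c d s t : K) (h : a * d - b * c = 1) (X Y : Matrix (Fin n) (Fin n) K) :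
    br (a • X + b • Y + s • 1) (c • X + d • Y + t • 1) = br X Y := by
  have h1 : br (a • X + b • Y + s • 1) (c • X + d • Y + t • 1) = (a * d - b * c) • br X Y := by
    unfold br
    simp only [add_mul, mul_add, smul_mul_assoc, mul_smul_comm, one_mul, mul_one, smul_sub,
      sub_smul]
    module
  rw [h1, h, one_smul]

theorem br_lin (a b s : K) (X Y Z : Matrix (Fin n) (Fin n) K) :
    br (a • X + b • Y + s • 1) Z = a • br X Z + b • br Y Z := by
  unfold br
  simp only [add_mul, mul_add, smul_mul_assoc, mul_smul_comm, one_mul, mul_one, smul_sub]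
  module

theorem exists_functional {V : Type} [AddCommGroup V] [Module K V] (v0 v1 : V)
    (h : LinearIndependent K ![v0, v1]) : ∃ lam : V →ₗ[K] K, lam v0 = 0 ∧ lam v1 = 1 := by
  obtain ⟨lam, hlam⟩ := LinearMap.exists_extend
    ((Finsupp.lapply (1 : Fin 2) : (Fin 2 →₀ K) →ₗ[K] K) ∘ₗ
      (h.repr : Submodule.span K (Set.range ![v0, v1]) →ₗ[K] (Fin 2 →₀ K)))
  have key : ∀ i : Fin 2, lam (![v0, v1] i) = (Finsupp.single i (1 : K)) 1 := by
    intro i
    have hi : ![v0, v1] i ∈ Submodule.span K (Set.range ![v0, v1]) :=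
      Submodule.subset_span ⟨i, rfl⟩
    have h1 := LinearMap.congr_fun hlam ⟨_, hi⟩
    have h2 : h.repr ⟨![v0, v1] i, hi⟩ = Finsupp.single i 1 := h.repr_eq_single i _ rfl
    simp only [LinearMap.comp_apply, Submodule.subtype_apply] at h1
    rw [h1]
    change (Finsupp.lapply (1 : Fin 2)) (h.repr ⟨![v0, v1] i, hi⟩) = _
    rw [h2]
    rfl
  refine ⟨lam, ?_, ?_⟩
  · have := key 0
    simpa using this
  · have := key 1
    simpa using this

/-- translations -/
theorem trans_inv {f : FreeAlgebra K (Fin 2)} (hi : InvH n f) (ht : Tr n f) (s t : K)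
    (X Y : Matrix (Fin n) (Fin n) K) : ev f ![X + s • 1, Y + t • 1] = ev f ![X, Y] := by
  rw [ht]
  have := hi (Polynomial.C t) X Y
  rw [Polynomial.aeval_C, Algebra.algebraMap_eq_smul_one] at this
  exact this

theorem shear_inv {f : FreeAlgebra K (Fin 2)} (hi : InvH n f) (c : K)
    (X Y : Matrix (Fin n) (Fin n) K) : ev f ![X, Y + c • X] = ev f ![X, Y] := by
  have := hi (Polynomial.C c * Polynomial.X) X Y
  rw [map_mul, Polynomial.aeval_C, Polynomial.aeval_X, ← Algebra.smul_def] at this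
  exact this

theorem exists_sl [Infinite K] (hPT : S_PT) (hLINE : S_LINE) (hRAZ : S_RAZ) (hCHART : S_CHART)
    (hn : 5 ≤ n) (hn3 : Nat.Coprime 3 n) (f : FreeAlgebra K (Fin 2)) (hf : Good n f)
    (hi : InvH n f) (ht : Tr n f) (hx : Hx n f) (hy : Hy n f) :
    ∃ g : FreeAlgebra K (Fin 2), Good n g ∧ SInv n g := by
  classical
  have hnz : ∃ X Y : Matrix (Fin n) (Fin n) K, ev f ![X, Y] ≠ 0 := by
    obtain ⟨X, hX⟩ := hf.nz
    rw [eta2 X] at hX
    exact ⟨_, _, hX⟩
  obtain ⟨p, hp⟩ := hx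
  obtain ⟨q, hq⟩ := hy
  obtain ⟨e, G, hG⟩ := hCHART K n p q f hnz (by
    intro s t X Y
    rw [hp, hq, smul_smul]) (fun c X Y => shear_inv hi c X Y)
  obtain ⟨X0, Y0, hf0, hsp, hli⟩ := hLINE K n (R0 K n) f hnz (hPT K n hn hn3)
  obtain ⟨lam, hl0, hl1⟩ := exists_functional _ _ hli
  obtain ⟨T, L, hT, hL, hLS⟩ := hRAZ K n (by omega) (R0 K n) X0 Y0 hsp lam
  set z0 : FreeAlgebra K (Fin 2) :=
    brp (FreeAlgebra.ι K 0) (brp (FreeAlgebra.ι K 0) (FreeAlgebra.ι K 1)) with hz0
  set z1 : FreeAlgebra K (Fin 2) :=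
    brp (FreeAlgebra.ι K 1) (brp (FreeAlgebra.ι K 0) (FreeAlgebra.ι K 1)) with hz1
  have ez0 : ∀ X Y : Matrix (Fin n) (Fin n) K, ev z0 ![X, Y] = br X (br X Y) := fun X Y => ev_z 0 X Y
  have ez1 : ∀ X Y : Matrix (Fin n) (Fin n) K, ev z1 ![X, Y] = br Y (br X Y) := fun X Y => ev_z 1 X Y
  set g : FreeAlgebra K (Fin 2) :=
    ∑ j ∈ Finset.range (e + 1), T z1 ^ (e - j) * (-T z0) ^ j * G j with hg
  have hval : ∀ X Y : Matrix (Fin n) (Fin n) K, ev g ![X, Y] =
      ∑ j ∈ Finset.range (e + 1), ((L X Y (br Y (br X Y))) ^ (e - j) *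
        (-(L X Y (br X (br X Y)))) ^ j) • ev (G j) ![X, Y] := by
    intro X Y
    have h0 := hT z0 X Y
    have h1 := hT z1 X Y
    rw [ez0] at h0
    rw [ez1] at h1
    rw [hg]
    unfold ev at h0 h1 ⊢
    rw [map_sum]
    refine Finset.sum_congr rfl fun j _ => ?_
    rw [map_mul, map_mul, map_pow, map_pow, map_neg, h0, h1, ← neg_smul, smul_pow, smul_pow,
      one_pow, one_pow, smul_mul_smul_comm, one_mul, smul_mul_assoc, one_mul]
  -- the values of `g` in terms of `f`
  have hgf : ∀ (X Y : Matrix (Fin n) (Fin n) K) (c d : K),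
      (L X Y (br Y (br X Y))) * d - (-(L X Y (br X (br X Y)))) * c = 1 →
      ev g ![X, Y] = ev f ![(L X Y (br Y (br X Y))) • X + (-(L X Y (br X (br X Y)))) • Y,
        c • X + d • Y] := by
    intro X Y c d h
    rw [hG _ _ _ _ h X Y, hval]
  have hG0 : ∀ X Y : Matrix (Fin n) (Fin n) K, ev (G 0) ![X, Y] = ev f ![X, Y] := by
    intro X Y
    have h := hG 1 0 0 1 (by ring) X Y
    rw [one_smul, zero_smul, add_zero, zero_smul, one_smul, zero_add] at h
    rw [h, Finset.sum_eq_single 0]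
    · simp
    · intro j _ hj
      rw [zero_pow hj, mul_zero, zero_smul]
    · intro h0
      exact absurd (Finset.mem_range.2 (Nat.succ_pos e)) h0
  have hg00 : ∀ X Y : Matrix (Fin n) (Fin n) K, L X Y (br Y (br X Y)) = 0 →
      L X Y (br X (br X Y)) = 0 → ev g ![X, Y] = if e = 0 then ev f ![X, Y] else 0 := by
    intro X Y h1 h2
    rw [hval, h1, h2, neg_zero]
    by_cases he : e = 0
    · rw [if_pos he, he]
      simp [hG0]
    · rw [if_neg he]
      refine Finset.sum_eq_zero fun j _ => ?_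
      by_cases hj : j = 0
      · rw [hj, Nat.sub_zero, zero_pow he, zero_mul, zero_smul]
      · rw [zero_pow hj, mul_zero, zero_smul]
  have hcase : ∀ X Y : Matrix (Fin n) (Fin n) K,
      (∃ P Q : Matrix (Fin n) (Fin n) K, ev g ![X, Y] = ev f ![P, Q]) ∨ ev g ![X, Y] = 0 := by
    intro X Y
    by_cases h1 : L X Y (br Y (br X Y)) = 0
    · by_cases h2 : L X Y (br X (br X Y)) = 0
      · rw [hg00 X Y h1 h2]
        by_cases he : e = 0
        · rw [if_pos he]
          exact Or.inl ⟨X, Y, rfl⟩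
        · rw [if_neg he]
          exact Or.inr rfl
      · left
        refine ⟨_, _, hgf X Y ((L X Y (br X (br X Y)))⁻¹) 0 ?_⟩
        rw [mul_zero, zero_sub, neg_mul, neg_neg, mul_inv_cancel₀ h2]
    · left
      refine ⟨_, _, hgf X Y 0 ((L X Y (br Y (br X Y)))⁻¹) ?_⟩
      rw [mul_zero, sub_zero, mul_inv_cancel₀ h1]
  refine ⟨g, ⟨?_, ?_, ?_⟩, ?_⟩
  · intro X Z
    rw [eta2 X]
    rcases hcase (X 0) (X 1) with ⟨P, Q, h⟩ | h
    · rw [h]
      exact hf.com _ Z
    · rw [h, zero_pow (by omega), zero_mul, mul_zero]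
  · intro X
    rw [eta2 X]
    rcases hcase (X 0) (X 1) with ⟨P, Q, h⟩ | h
    · rw [h]
      exact hf.tr _
    · rw [h, Matrix.trace_zero]
  · refine ⟨![X0, Y0], ?_⟩
    have h1 : L X0 Y0 (br Y0 (br X0 Y0)) = 1 := by rw [hL, hl1]
    have h2 : L X0 Y0 (br X0 (br X0 Y0)) = 0 := by rw [hL, hl0]
    rw [hgf X0 Y0 0 1 (by rw [h1, h2]; ring), h1, h2]
    rw [one_smul, neg_zero, zero_smul, add_zero, zero_smul, one_smul, zero_add]
    exact hf0
  · intro a b c d s t h X Y
    set X' := a • X + b • Y + s • (1 : Matrix (Fin n) (Fin n) K) with hX'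
    set Y' := c • X + d • Y + t • (1 : Matrix (Fin n) (Fin n) K) with hY'
    have hLL : L X' Y' = L X Y := hLS X Y X' Y' (fun r hr => hr a b c d s t h X Y)
    have hb : br X' Y' = br X Y := br_aff a b c d s t h X Y
    have hd0 : L X' Y' (br X' (br X' Y')) =
        a * L X Y (br X (br X Y)) + b * L X Y (br Y (br X Y)) := by
      rw [hLL, hb, hX', br_lin, map_add, map_smul, map_smul, smul_eq_mul, smul_eq_mul]
    have hd1 : L X' Y' (br Y' (br X' Y')) =
        c * L X Y (br X (br X Y)) + d * L X Y (br Y (br X Y)) := by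
      rw [hLL, hb, hY', br_lin, map_add, map_smul, map_smul, smul_eq_mul, smul_eq_mul]
    set α := L X Y (br X (br X Y)) with hα
    set β := L X Y (br Y (br X Y)) with hβ
    have hmain : ∀ c1 d1 : K, β * d1 - (-α) * c1 = 1 →
        ev g ![X', Y'] = ev g ![X, Y] := by
      intro c1 d1 h1
      have e1 := hgf X Y c1 d1 (by rw [← hα, ← hβ]; exact h1)
      have e2 := hgf X' Y' (c1 * d - d1 * c) (-(c1 * b) + d1 * a) (by
        rw [hd0, hd1]
        linear_combination (a * d - b * c) * h1 + h)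
      rw [e1, e2, hd0, hd1, ← hα, ← hβ]
      have e3 : (c * α + d * β) • X' + (-(a * α + b * β)) • Y' =
          (β • X + (-α) • Y) + ((c * α + d * β) * s + (-(a * α + b * β)) * t) • 1 := by
        have e4 : (c * α + d * β) • X' + (-(a * α + b * β)) • Y' =
          ((a * d - b * c) * β) • X + ((a * d - b * c) * (-α)) • Y
            + ((c * α + d * β) * s + (-(a * α + b * β)) * t) • 1 := by
          rw [hX', hY']
          module
        rw [e4, h, one_mul, one_mul]
      have e5 : (c1 * d - d1 * c) • X' + (-(c1 * b) + d1 * a) • Y' =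
          (c1 • X + d1 • Y) + ((c1 * d - d1 * c) * s + (-(c1 * b) + d1 * a) * t) • 1 := by
        have e4 : (c1 * d - d1 * c) • X' + (-(c1 * b) + d1 * a) • Y' =
          ((a * d - b * c) * c1) • X + ((a * d - b * c) * d1) • Y
            + ((c1 * d - d1 * c) * s + (-(c1 * b) + d1 * a) * t) • 1 := by
          rw [hX', hY']
          module
        rw [e4, h, one_mul, one_mul]
      rw [e3, e5, trans_inv hi ht]
    by_cases hβ0 : β = 0
    · by_cases hα0 : α = 0
      · have e1 := hg00 X Y (by rw [← hβ, hβ0]) (by rw [← hα, hα0])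
        have e2 := hg00 X' Y' (by rw [hd1, hα0, hβ0]; ring) (by rw [hd0, hα0, hβ0]; ring)
        rw [e1, e2]
        by_cases he : e = 0
        · rw [if_pos he, if_pos he, hX', hY', trans_inv hi ht, hG _ _ _ _ h, he]
          simp [hG0]
        · rw [if_neg he, if_neg he]
      · exact hmain (α⁻¹) 0 (by rw [mul_zero, zero_sub, neg_mul, neg_neg, mul_inv_cancel₀ hα0])
    · exact hmain 0 (β⁻¹) (by rw [mul_zero, sub_zero, mul_inv_cancel₀ hβ0])

/-- the last torus factor -/
theorem exists_torus [Infinite K] (hFAM : S_FAM.{0, 0}) (hUNI : S_UNI.{0})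
    (hTOP : S_TOP.{0, 0}) (f : FreeAlgebra K (Fin 2)) (hf : Good n f) (hi : SInv n f) :
    ∃ g : FreeAlgebra K (Fin 2), Good n g ∧ SInv n g ∧ Hx n g := by
  have hA : ∀ (t : K) (P Q : Matrix (Fin n) (Fin n) K),
      Af ![0, FreeAlgebra.ι K 1] ![FreeAlgebra.ι K 0, 0] t ![P, Q] = ![t • P, Q] := by
    intro t P Q
    rw [Af_two, ev_ι, ev_ι, ev_zero]
    simp
  obtain ⟨g, hg, -, -, h2, h3⟩ := step hFAM hUNI hTOP
    ![0, FreeAlgebra.ι K 1] ![FreeAlgebra.ι K 0, 0] f hf 1 (by
      intro X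
      rw [eta2 X, hA]
      simp)
  refine ⟨g, hg, ?_, ?_⟩
  · intro a b c d s t h X Y
    have := h3 ![X, Y] ![a • X + b • Y + s • 1, c • X + d • Y + t • 1] 1 (by
      intro r hr
      rw [hA, hA, one_smul]
      have h4 := hi a (r * b) (c * r⁻¹) d (r * s) t (by
        field_simp
        linear_combination h) (r • X) Y
      have e1 : r • (a • X + b • Y + s • (1 : Matrix (Fin n) (Fin n) K)) =
          a • r • X + (r * b) • Y + (r * s) • 1 := by
        module
      have e2 : c • X + d • Y + t • (1 : Matrix (Fin n) (Fin n) K) =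
          (c * r⁻¹) • r • X + d • Y + t • 1 := by
        rw [smul_smul, mul_assoc, inv_mul_cancel₀ hr, mul_one]
      rw [e1, e2]
      exact h4)
    rw [this, one_smul]
  · obtain ⟨d, hd⟩ := h2 (by
      intro s t X
      rw [eta2 X, hA, hA, hA, smul_smul])
    refine ⟨d, fun s P Q => ?_⟩
    rw [← hA, hd]

/-- semi-invariance under all affine substitutions -/
theorem full_inv (hnK : (n : K) ≠ 0) (g : FreeAlgebra K (Fin 2)) (hg : Good n g)
    (hi : SInv n g) (hx : Hx n g) :
    ∃ k : ℕ, 0 < k ∧ ∀ (a b c d s t : K) (X Y : Matrix (Fin n) (Fin n) K),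
      ev g ![a • X + b • Y + s • 1, c • X + d • Y + t • 1] = (a * d - b * c) ^ k • ev g ![X, Y] := by
  obtain ⟨k, hk⟩ := hx
  -- translations
  have htr : ∀ (s t : K) (X Y : Matrix (Fin n) (Fin n) K),
      ev g ![X + s • 1, Y + t • 1] = ev g ![X, Y] := by
    intro s t X Y
    have := hi 1 0 0 1 s t (by ring) X Y
    simpa using this
  have hrot : ∀ X Y : Matrix (Fin n) (Fin n) K, ev g ![Y, -X] = ev g ![X, Y] := by
    intro X Y
    have := hi 0 1 (-1) 0 0 0 (by ring) X Y
    simpa using this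
  have hk0 : k ≠ 0 := by
    intro hk0
    subst hk0
    have h0 : ∀ (s : K) (P Q : Matrix (Fin n) (Fin n) K), ev g ![s • P, Q] = ev g ![P, Q] := by
      intro s P Q
      rw [hk, pow_zero, one_smul]
    have h1 : ∀ P Q : Matrix (Fin n) (Fin n) K, ev g ![P, Q] = ev g ![0, Q] := by
      intro P Q
      rw [← h0 0 P Q, zero_smul]
    have h2 : ∀ P Q : Matrix (Fin n) (Fin n) K, ev g ![P, Q] = ev g ![0, 0] := by
      intro P Q
      rw [h1, ← hrot 0 Q, neg_zero, h1]
    obtain ⟨X, hX⟩ := hg.nz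
    rw [eta2 X, h2] at hX
    have h3 : ∃ c : K, ev g ![(0 : Matrix (Fin n) (Fin n) K), 0] = c • 1 := by
      have h4 : ∀ f : FreeAlgebra K (Fin 2),
          ∃ c : K, ev f ![(0 : Matrix (Fin n) (Fin n) K), 0] = c • 1 := by
        intro f
        unfold ev
        induction f using FreeAlgebra.induction with
        | grade0 c => exact ⟨c, by rw [AlgHom.commutes, Algebra.algebraMap_eq_smul_one]⟩
        | grade1 i =>
          refine ⟨0, ?_⟩
          rw [FreeAlgebra.lift_ι_apply, zero_smul]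
          fin_cases i <;> rfl
        | mul a b ha hb =>
          obtain ⟨c, hc⟩ := ha
          obtain ⟨d, hd⟩ := hb
          exact ⟨c * d, by rw [map_mul, hc, hd, smul_mul_smul_comm, one_mul]⟩
        | add a b ha hb =>
          obtain ⟨c, hc⟩ := ha
          obtain ⟨d, hd⟩ := hb
          exact ⟨c + d, by rw [map_add, hc, hd, add_smul]⟩
      exact h4 g
    obtain ⟨c, hc⟩ := h3
    have h5 := hg.tr ![0, 0]
    rw [hc, Matrix.trace_smul, Matrix.trace_one, Fintype.card_fin, smul_eq_mul] at h5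
    rcases mul_eq_zero.1 h5 with h6 | h6
    · rw [hc, h6, zero_smul] at hX
      exact hX rfl
    · exact hnK h6
  have hz : ∀ Q : Matrix (Fin n) (Fin n) K, ev g ![0, Q] = 0 := by
    intro Q
    have := hk 0 0 Q
    rwa [zero_smul, zero_pow hk0, zero_smul] at this
  have hz' : ∀ (s : K) (Q : Matrix (Fin n) (Fin n) K), ev g ![s • 1, Q] = 0 := by
    intro s Q
    have := htr s 0 0 Q
    rw [zero_add, zero_smul, add_zero, hz] at this
    exact this
  refine ⟨k, Nat.pos_of_ne_zero hk0, ?_⟩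
  intro a b c d s t X Y
  by_cases hD : a * d - b * c = 0
  · rw [hD, zero_pow hk0, zero_smul]
    by_cases hab : a = 0 ∧ b = 0
    · rw [hab.1, hab.2, zero_smul, zero_smul, add_zero, zero_add]
      exact hz' _ _
    · obtain ⟨μ, h1, h2⟩ : ∃ μ : K, c = μ * a ∧ d = μ * b := by
        by_cases ha : a = 0
        · have hb : b ≠ 0 := fun hb => hab ⟨ha, hb⟩
          refine ⟨d / b, ?_, by field_simp⟩
          rw [ha, zero_mul, zero_sub, neg_eq_zero] at hD
          rw [ha, mul_zero]
          exact (mul_eq_zero.1 hD).resolve_left hb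
        · refine ⟨c / a, by field_simp, ?_⟩
          field_simp
          linear_combination hD
      have h3 := hi μ (-1) 1 0 0 0 (by ring) (a • X + b • Y + s • 1) (c • X + d • Y + t • 1)
      rw [← h3, h1, h2]
      have e1 : μ • (a • X + b • Y + s • (1 : Matrix (Fin n) (Fin n) K)) +
          (-1 : K) • ((μ * a) • X + (μ * b) • Y + t • 1) + (0 : K) • 1 = (μ * s - t) • 1 := by
        module
      rw [e1]
      exact hz' _ _
  · set D := a * d - b * c with hDdef
    have h1 := hi (a / D) (b / D) c d (s / D) t (by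
      rw [hDdef] at hD ⊢
      field_simp) X Y
    rw [← h1]
    have e1 : a • X + b • Y + s • (1 : Matrix (Fin n) (Fin n) K) =
        D • ((a / D) • X + (b / D) • Y + (s / D) • 1) := by
      rw [smul_add, smul_add, smul_smul, smul_smul, smul_smul, mul_div_cancel₀ _ hD,
        mul_div_cancel₀ _ hD, mul_div_cancel₀ _ hD]
    rw [e1, hk]

end

end Pool.Agent.K1H41.SL
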