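import Pool.Agent.K1H41.NF.Main

/-!
# `n`-central polynomials which are semi-invariants of the affine group of the plane: statements
-/

set_option autoImplicit false

namespace Pool.Agent.K1H41.SL

open Pool.Agent.K1H41.NF Matrix

section Defs

variable {K : Type} [Field K]

/-- invariance of the values on `n × n` matrices under the group of the affine substitutions of
`x, y` with determinant `1` -/
def SInv (n : ℕ) (r : FreeAlgebra K (Fin 2)) : Prop :=
  ∀ (a b c d s t : K), a * d - b * c = 1 → ∀ X Y : Matrix (Fin n) (Fin n) K,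
    ev r ![a • X + b • Y + s • 1, c • X + d • Y + t • 1] = ev r ![X, Y]

/-- the algebra of the invariant polynomials -/
noncomputable def R0 (K : Type) [Field K] (n : ℕ) : Subalgebra K (FreeAlgebra K (Fin 2)) where
  carrier := {r | SInv n r}
  mul_mem' := by
    intro p q hp hq a b c d s t h X Y
    have h1 := hp a b c d s t h X Y
    have h2 := hq a b c d s t h X Y
    unfold ev at *
    rw [map_mul, map_mul, h1, h2]
  add_mem' := by
    intro p q hp hq a b c d s t h X Y
    have h1 := hp a b c d s t h X Y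
    have h2 := hq a b c d s t h X Y
    unfold ev at *
    rw [map_add, map_add, h1, h2]
  algebraMap_mem' := by
    intro k a b c d s t _ X Y
    unfold ev
    rw [AlgHom.commutes, AlgHom.commutes]

/-- commutator -/
def br {n : ℕ} (X Y : Matrix (Fin n) (Fin n) K) : Matrix (Fin n) (Fin n) K := X * Y - Y * X

/-- the span of the values at `(X, Y)` of the polynomials in `S` -/
def spv {n : ℕ} (S : Subalgebra K (FreeAlgebra K (Fin 2))) (X Y : Matrix (Fin n) (Fin n) K) :
    Submodule K (Matrix (Fin n) (Fin n) K) :=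
  Submodule.span K {A | ∃ r ∈ S, A = ev r ![X, Y]}

end Defs

/-- PT. a pair of matrices at which the values of the invariant polynomials span the matrix algebra,
and `[x, [x, y]]`, `[y, [x, y]]` have linearly independent values -/
def S_PT : Prop := ∀ (K : Type) [Field K] [Infinite K] (n : ℕ), 5 ≤ n → Nat.Coprime 3 n →
  ∃ X Y : Matrix (Fin n) (Fin n) K, spv (R0 K n) X Y = ⊤ ∧
    LinearIndependent K ![br X (br X Y), br Y (br X Y)]

/-- LINE. three open conditions which can be satisfied separately can be satisfied together -/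
def S_LINE : Prop := ∀ (K : Type) [Field K] [Infinite K] (n : ℕ)
  (S : Subalgebra K (FreeAlgebra K (Fin 2))) (f : FreeAlgebra K (Fin 2)),
  (∃ X Y : Matrix (Fin n) (Fin n) K, ev f ![X, Y] ≠ 0) →
  (∃ X Y : Matrix (Fin n) (Fin n) K, spv S X Y = ⊤ ∧
    LinearIndependent K ![br X (br X Y), br Y (br X Y)]) →
  ∃ X Y : Matrix (Fin n) (Fin n) K, ev f ![X, Y] ≠ 0 ∧ spv S X Y = ⊤ ∧
    LinearIndependent K ![br X (br X Y), br Y (br X Y)]

/-- RAZ. scalar valued polynomials: `T w` has the scalar value `L (w (X, Y))` with a linear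
functional `L` depending only on the values of the elements of `S` at `(X, Y)`; the functional at
one good point is prescribed -/
def S_RAZ : Prop := ∀ (K : Type) [Field K] (n : ℕ), 0 < n →
  ∀ (S : Subalgebra K (FreeAlgebra K (Fin 2))) (X0 Y0 : Matrix (Fin n) (Fin n) K),
  spv S X0 Y0 = ⊤ → ∀ lam : Matrix (Fin n) (Fin n) K →ₗ[K] K,
  ∃ (T : FreeAlgebra K (Fin 2) → FreeAlgebra K (Fin 2))
    (L : Matrix (Fin n) (Fin n) K → Matrix (Fin n) (Fin n) K →
      (Matrix (Fin n) (Fin n) K →ₗ[K] K)),
    (∀ (w : FreeAlgebra K (Fin 2)) (X Y : Matrix (Fin n) (Fin n) K),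
      ev (T w) ![X, Y] = (L X Y (ev w ![X, Y])) • 1) ∧
    L X0 Y0 = lam ∧
    ∀ X Y X' Y' : Matrix (Fin n) (Fin n) K,
      (∀ r ∈ S, ev r ![X', Y'] = ev r ![X, Y]) → L X' Y' = L X Y

/-- CHART. the values of `f` on the orbits of `SL_2` as a binary form -/
def S_CHART : Prop := ∀ (K : Type) [Field K] [Infinite K] (n p q : ℕ)
  (f : FreeAlgebra K (Fin 2)),
  (∃ X Y : Matrix (Fin n) (Fin n) K, ev f ![X, Y] ≠ 0) →
  (∀ (s t : K) (X Y : Matrix (Fin n) (Fin n) K),
    ev f ![s • X, t • Y] = (s ^ p * t ^ q) • ev f ![X, Y]) →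
  (∀ (c : K) (X Y : Matrix (Fin n) (Fin n) K), ev f ![X, Y + c • X] = ev f ![X, Y]) →
  ∃ (e : ℕ) (G : ℕ → FreeAlgebra K (Fin 2)), ∀ (a b c d : K), a * d - b * c = 1 →
    ∀ X Y : Matrix (Fin n) (Fin n) K, ev f ![a • X + b • Y, c • X + d • Y] =
      ∑ j ∈ Finset.range (e + 1), (a ^ (e - j) * b ^ j) • ev (G j) ![X, Y]

end Pool.Agent.K1H41.SL
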