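import Pool.Agent.K1H41.SL.Stm
import Pool.Agent.K1H41.NF.T_FAM
import Pool.Agent.K1H41.NF.T_TOP

/-!
CHART: the values of a Borel semi-invariant on the orbits of `SL_2` as a binary form
-/

set_option autoImplicit false

namespace Pool.Agent.K1H41.SL

open Pool.Agent.K1H41.NF Matrix

section chart

variable {K : Type} [Field K] {n : ℕ}

lemma sum_zero_pow (N : ℕ) (c : ℕ → Matrix (Fin n) (Fin n) K) (hc : ∀ k, N ≤ k → c k = 0) :
    ∑ k ∈ Finset.range N, (0 : K) ^ k • c k = c 0 := by
  cases N with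
  | zero => rw [Finset.range_zero, Finset.sum_empty, hc 0 le_rfl]
  | succ N =>
    rw [Finset.sum_range_succ', pow_zero, one_smul, Finset.sum_eq_zero, zero_add]
    intro k _
    rw [pow_succ, mul_zero, zero_smul]

lemma sum_extend (N M : ℕ) (hNM : N ≤ M) (g : ℕ → Matrix (Fin n) (Fin n) K)
    (hg : ∀ k, N ≤ k → g k = 0) :
    ∑ k ∈ Finset.range N, g k = ∑ k ∈ Finset.range M, g k := by
  apply Finset.sum_subset (Finset.range_mono hNM)
  intro k _ hk
  exact hg k (by simpa using hk)

/-- comparison of coefficients -/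
lemma chart_coeff [Infinite K] (p q N N' : ℕ) (G H : ℕ → Matrix (Fin n) (Fin n) K)
    (hG : ∀ k, N ≤ k → G k = 0) (hH : ∀ k, N' ≤ k → H k = 0)
    (h : ∀ u : K, u ≠ 0 → (u ^ p * (u⁻¹) ^ q) • ∑ j ∈ Finset.range N, (u⁻¹) ^ j • G j =
      (-1 : K) ^ q • ∑ k ∈ Finset.range N', u ^ k • H k) :
    (∀ j, p < q + j → G j = 0) ∧ (q ≤ p → G (p - q) = (-1 : K) ^ q • H 0) := by
  -- the two sequences of coefficients
  set α : ℕ → Matrix (Fin n) (Fin n) K := fun m => if m ≤ p + N then G (p + N - m) else 0 with hα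
  set β : ℕ → Matrix (Fin n) (Fin n) K := fun m => if N + q ≤ m then
    (-1 : K) ^ q • H (m - (N + q)) else 0 with hβ
  have key : ∀ u : K, u ≠ 0 → ∑ k ∈ Finset.range (p + N + 1 + (q + N')), u ^ k • α k =
      ∑ k ∈ Finset.range (p + N + 1 + (q + N')), u ^ k • β k := by
    intro u hu
    have hl : ∑ k ∈ Finset.range (p + N + 1 + (q + N')), u ^ k • α k =
        u ^ (N + q) • ((u ^ p * (u⁻¹) ^ q) • ∑ j ∈ Finset.range N, (u⁻¹) ^ j • G j) := by
      rw [Finset.sum_range_add]
      have h0 : ∑ x ∈ Finset.range (q + N'), u ^ (p + N + 1 + x) • α (p + N + 1 + x) = 0 := by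
        apply Finset.sum_eq_zero
        intro x _
        rw [hα]
        simp only
        rw [if_neg (by omega), smul_zero]
      rw [h0, add_zero, ← Finset.sum_range_reflect]
      rw [sum_extend N (p + N + 1) (by omega) (fun j => (u⁻¹) ^ j • G j) (fun k hk => by
        rw [hG k hk, smul_zero])]
      rw [Finset.smul_sum, Finset.smul_sum]
      refine Finset.sum_congr rfl fun j hj => ?_
      rw [Finset.mem_range] at hj
      rw [hα]
      simp only
      rw [if_pos (by omega), smul_smul, smul_smul]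
      have e1 : p + N - (p + N + 1 - 1 - j) = j := by omega
      rw [e1]
      by_cases hjN : N ≤ j
      · rw [hG j hjN, smul_zero, smul_zero]
      · congr 1
        have e2 : u ^ (N + q) * (u ^ p * (u⁻¹) ^ q * (u⁻¹) ^ j) * u ^ j = u ^ (p + N) := by
          rw [inv_pow, inv_pow]
          field_simp
          ring
        have e3 : u ^ (p + N + 1 - 1 - j) * u ^ j = u ^ (p + N) := by
          rw [← pow_add]
          congr 1
          omega
        exact mul_right_cancel₀ (pow_ne_zero j hu) (by rw [e3, mul_assoc (u ^ (N + q)), ← e2, mul_assoc])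
    have hr : ∑ k ∈ Finset.range (p + N + 1 + (q + N')), u ^ k • β k =
        u ^ (N + q) • ((-1 : K) ^ q • ∑ k ∈ Finset.range N', u ^ k • H k) := by
      have e0 : p + N + 1 + (q + N') = (N + q) + (N' + (p + 1)) := by omega
      rw [e0, Finset.sum_range_add]
      have h0 : ∑ x ∈ Finset.range (N + q), u ^ x • β x = 0 := by
        apply Finset.sum_eq_zero
        intro x hx
        rw [Finset.mem_range] at hx
        rw [hβ]
        simp only
        rw [if_neg (by omega), smul_zero]
      rw [h0, zero_add]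
      rw [sum_extend N' (N' + (p + 1)) (by omega) (fun j => u ^ j • H j) (fun k hk => by
        rw [hH k hk, smul_zero])]
      rw [Finset.smul_sum, Finset.smul_sum]
      refine Finset.sum_congr rfl fun j _ => ?_
      rw [hβ]
      simp only
      rw [if_pos (by omega), Nat.add_sub_cancel_left, smul_smul, smul_smul, smul_smul]
      congr 1
      rw [pow_add]
      ring
    rw [hl, hr, h u hu]
  have huni := t_UNI K n (p + N + 1 + (q + N')) α β key
  constructor
  · intro j hj
    by_cases hjN : N ≤ j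
    · exact hG j hjN
    · have h1 := huni (p + N - j) (by omega)
      rw [hα, hβ] at h1
      simp only at h1
      rw [if_pos (by omega), if_neg (by omega)] at h1
      have e1 : p + N - (p + N - j) = j := by omega
      rwa [e1] at h1
  · intro hqp
    have h1 := huni (N + q) (by omega)
    rw [hα, hβ] at h1
    simp only at h1
    rw [if_pos (by omega), if_pos le_rfl, Nat.sub_self] at h1
    have e1 : p + N - (N + q) = p - q := by omega
    rwa [e1] at h1

/-- abstract form of CHART -/
lemma chart_abs [Infinite K] (p q N N' : ℕ)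
    (F : Matrix (Fin n) (Fin n) K → Matrix (Fin n) (Fin n) K → Matrix (Fin n) (Fin n) K)
    (G H : ℕ → Matrix (Fin n) (Fin n) K → Matrix (Fin n) (Fin n) K → Matrix (Fin n) (Fin n) K)
    (hG : ∀ k X Y, N ≤ k → G k X Y = 0) (hH : ∀ k X Y, N' ≤ k → H k X Y = 0)
    (hFG : ∀ X Y (t : K), F (X + t • Y) Y = ∑ k ∈ Finset.range N, t ^ k • G k X Y)
    (hFH : ∀ X Y (t : K), F (Y + t • X) X = ∑ k ∈ Finset.range N', t ^ k • H k X Y)
    (hnz : ∃ X Y, F X Y ≠ 0)
    (hom : ∀ (s t : K) X Y, F (s • X) (t • Y) = (s ^ p * t ^ q) • F X Y)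
    (hinv : ∀ (c : K) X Y, F X (Y + c • X) = F X Y) :
    ∃ e : ℕ, ∀ (a b c d : K), a * d - b * c = 1 → ∀ X Y : Matrix (Fin n) (Fin n) K,
      F (a • X + b • Y) (c • X + d • Y) =
        ∑ j ∈ Finset.range (e + 1), (a ^ (e - j) * b ^ j) • G j X Y := by
  -- the formulas (*) and (**)
  have st1 : ∀ (a b c d : K), a * d - b * c = 1 → a ≠ 0 → ∀ X Y : Matrix (Fin n) (Fin n) K,
      F (a • X + b • Y) (c • X + d • Y) =
        (a ^ p * (a⁻¹) ^ q) • ∑ j ∈ Finset.range N, (b / a) ^ j • G j X Y := by
    intro a b c d h ha X Y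
    have e1 : c • X + d • Y = a⁻¹ • Y + (c / a) • (a • X + b • Y) := by
      rw [smul_add, smul_smul, smul_smul, div_mul_cancel₀ c ha, add_left_comm, ← add_smul]
      congr 2
      field_simp
      linear_combination h
    have e2 : a • X + b • Y = a • (X + (b / a) • Y) := by
      rw [smul_add, smul_smul, mul_div_cancel₀ b ha]
    rw [e1, hinv, e2, hom, hFG]
  have st2 : ∀ (a b c d : K), a * d - b * c = 1 → b ≠ 0 → ∀ X Y : Matrix (Fin n) (Fin n) K,
      F (a • X + b • Y) (c • X + d • Y) =
        (b ^ p * (-b⁻¹) ^ q) • ∑ k ∈ Finset.range N', (a / b) ^ k • H k X Y := by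
    intro a b c d h hb X Y
    have e1 : c • X + d • Y = (-b⁻¹) • X + (d / b) • (a • X + b • Y) := by
      rw [smul_add, smul_smul, smul_smul, div_mul_cancel₀ d hb, ← add_assoc, ← add_smul]
      congr 2
      field_simp
      linear_combination -h
    have e2 : a • X + b • Y = b • (Y + (a / b) • X) := by
      rw [smul_add, smul_smul, mul_div_cancel₀ a hb, add_comm]
    rw [e1, hinv, e2, hom, hFH]
  have hco : ∀ X Y, (∀ j, p < q + j → G j X Y = 0) ∧
      (q ≤ p → G (p - q) X Y = (-1 : K) ^ q • H 0 X Y) := by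
    intro X Y
    apply chart_coeff p q N N' (fun j => G j X Y) (fun k => H k X Y) (fun k => hG k X Y)
      (fun k => hH k X Y)
    intro u hu
    have h1 := st1 u 1 (-1) 0 (by ring) hu X Y
    have h2 := st2 u 1 (-1) 0 (by ring) one_ne_zero X Y
    rw [h1] at h2
    rw [one_div, inv_one, div_one, one_pow, one_mul] at h2
    exact h2
  have hqp : q ≤ p := by
    by_contra hlt
    obtain ⟨X, Y, hXY⟩ := hnz
    apply hXY
    have h1 := hFG X Y 0
    rw [zero_smul, add_zero, sum_zero_pow N (fun k => G k X Y) (fun k hk => hG k X Y hk)] at h1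
    rw [h1]
    exact (hco X Y).1 0 (by omega)
  refine ⟨p - q, fun a b c d h X Y => ?_⟩
  obtain ⟨hc1, hc2⟩ := hco X Y
  by_cases ha : a = 0
  · subst ha
    have hb : b ≠ 0 := by
      rintro rfl
      simp at h
    rw [st2 0 b c d h hb X Y, zero_div, sum_zero_pow N' (fun k => H k X Y) (fun k hk => hH k X Y hk),
      Finset.sum_eq_single (p - q)]
    · rw [Nat.sub_self, pow_zero, one_mul, hc2 hqp, smul_smul]
      congr 1
      have e1 : b ^ p = b ^ (p - q) * b ^ q := by
        rw [← pow_add]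
        congr 1
        omega
      rw [e1, neg_pow, inv_pow]
      field_simp
    · intro j hj hne
      rw [Finset.mem_range] at hj
      rw [zero_pow (by omega), zero_mul, zero_smul]
    · intro hnot
      exact absurd (Finset.mem_range.mpr (Nat.lt_succ_self _)) hnot
  · rw [st1 a b c d h ha X Y]
    rw [sum_extend N (N + (p - q + 1)) (by omega) (fun j => (b / a) ^ j • G j X Y) (fun k hk => by
      rw [hG k X Y hk, smul_zero])]
    rw [← sum_extend (p - q + 1) (N + (p - q + 1)) (by omega) (fun j => (b / a) ^ j • G j X Y)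
      (fun k hk => by rw [hc1 k (by omega), smul_zero])]
    rw [Finset.smul_sum]
    refine Finset.sum_congr rfl fun j hj => ?_
    rw [Finset.mem_range] at hj
    rw [smul_smul]
    congr 1
    have e1 : a ^ p = a ^ (p - q - j) * a ^ q * a ^ j := by
      rw [← pow_add, ← pow_add]
      congr 1
      omega
    rw [e1, inv_pow, div_pow]
    field_simp

end chart

/-- **piece CHART** -/
theorem t_CHART : S_CHART := by
  intro K _ _ n p q f hnz hom hinv
  obtain ⟨N, G, hG0, hG, -⟩ := t_FAM K (Fin 2) ![FreeAlgebra.ι K 0, FreeAlgebra.ι K 1]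
    ![FreeAlgebra.ι K 1, 0] f
  obtain ⟨N', H, hH0, hH, -⟩ := t_FAM K (Fin 2) ![FreeAlgebra.ι K 1, FreeAlgebra.ι K 0]
    ![FreeAlgebra.ι K 0, 0] f
  have h1 : ∀ (X Y : Matrix (Fin n) (Fin n) K) (t : K), ev f ![X + t • Y, Y] =
      ∑ k ∈ Finset.range N, t ^ k • ev (G k) ![X, Y] := by
    intro X Y t
    rw [← hG n ![X, Y] t]
    congr 1
    funext i
    fin_cases i
    · simp [ev_ι]
    · simp [ev_ι, ev_zero]
  have h2 : ∀ (X Y : Matrix (Fin n) (Fin n) K) (t : K), ev f ![Y + t • X, X] =
      ∑ k ∈ Finset.range N', t ^ k • ev (H k) ![X, Y] := by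
    intro X Y t
    rw [← hH n ![X, Y] t]
    congr 1
    funext i
    fin_cases i
    · simp [ev_ι]
    · simp [ev_ι, ev_zero]
  obtain ⟨e, he⟩ := chart_abs p q N N' (fun X Y => ev f ![X, Y]) (fun k X Y => ev (G k) ![X, Y])
    (fun k X Y => ev (H k) ![X, Y]) (fun k X Y hk => by rw [hG0 k hk, ev_zero])
    (fun k X Y hk => by rw [hH0 k hk, ev_zero]) h1 h2 hnz hom hinv
  exact ⟨e, G, he⟩

end Pool.Agent.K1H41.SL
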