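import Pool.Agent.K1H41.SL.Stm
import Pool.Agent.K1H41.NF.Com

set_option autoImplicit false

namespace Pool.Agent.K1H41.SL

open Pool.Agent.K1H41.NF Polynomial

namespace LINE

variable {K : Type} [Field K] {n : ℕ}

/-- the entries are polynomials in `t` -/
def PM (M : K → Matrix (Fin n) (Fin n) K) : Prop :=
  ∀ i j, ∃ p : K[X], ∀ t, M t i j = p.eval t

theorem pm_ev (f : FreeAlgebra K (Fin 2)) (X Y X' Y' : Matrix (Fin n) (Fin n) K) :
    PM (fun t : K => ev f ![X + t • X', Y + t • Y']) := by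
  intro i j
  obtain ⟨p, hp⟩ := ev_line f ![X, Y] ![X', Y'] i j
  refine ⟨p, fun t => ?_⟩
  rw [← hp t]
  have h : ![X + t • X', Y + t • Y'] = fun k => ![X, Y] k + t • ![X', Y'] k := by
    funext k
    fin_cases k <;> rfl
  change ev f ![X + t • X', Y + t • Y'] i j = _
  rw [h]

theorem li_poly {ι : Type} [Fintype ι] [DecidableEq ι] (v : ι → K → Matrix (Fin n) (Fin n) K)
    (hv : ∀ i, PM (v i)) (t0 : K) (h : LinearIndependent K fun i => v i t0) :
    ∃ D : K[X], D.eval t0 ≠ 0 ∧ ∀ t, D.eval t ≠ 0 → LinearIndependent K fun i => v i t := by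
  classical
  have hinj : LinearMap.ker (Fintype.linearCombination K (fun i => v i t0)) = ⊥ := by
    rw [LinearMap.ker_eq_bot]
    exact LinearIndependent.fintypeLinearCombination_injective h
  obtain ⟨φ, hφ⟩ := LinearMap.exists_leftInverse_of_injective _ hinj
  have hφ1 : ∀ i, φ (v i t0) = Pi.single i 1 := by
    intro i
    have h1 := DFunLike.congr_fun hφ (Pi.single i 1)
    rw [LinearMap.comp_apply, LinearMap.id_apply] at h1
    rw [← h1]
    congr 1
    rw [Fintype.linearCombination_apply_single, one_smul]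
  have hpoly : ∀ i j : ι, ∃ p : K[X], ∀ t, φ (v i t) j = p.eval t := by
    intro i j
    choose p hp using hv i
    refine ⟨∑ a, ∑ b, p a b * C (φ (Matrix.single a b 1) j), fun t => ?_⟩
    have h1 : v i t = ∑ a, ∑ b, (v i t a b) • Matrix.single a b (1 : K) := by
      conv_lhs => rw [Matrix.matrix_eq_sum_single (v i t)]
      refine Finset.sum_congr rfl fun a _ => Finset.sum_congr rfl fun b _ => ?_
      rw [Matrix.smul_single, smul_eq_mul, mul_one]
    rw [h1]
    simp only [map_sum, map_smul, Finset.sum_apply, Pi.smul_apply, smul_eq_mul, eval_finset_sum,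
      eval_mul, eval_C, hp]
  choose P hP using hpoly
  refine ⟨(Matrix.of P).det, ?_, ?_⟩
  · have h1 : (Matrix.of P).det.eval t0 = (Matrix.of fun i j => φ (v i t0) j).det := by
      have := RingHom.map_det (evalRingHom t0) (Matrix.of P)
      rw [coe_evalRingHom] at this
      rw [this]
      congr 1
      ext i j
      simp [hP]
    rw [h1]
    have h2 : (Matrix.of fun i j => φ (v i t0) j) = 1 := by
      ext i j
      rw [Matrix.of_apply, hφ1, Matrix.one_apply, Pi.single_apply]
      simp only [eq_comm]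
    rw [h2, Matrix.det_one]
    exact one_ne_zero
  · intro t ht
    have h1 : (Matrix.of P).det.eval t = (Matrix.of fun i j => φ (v i t) j).det := by
      have := RingHom.map_det (evalRingHom t) (Matrix.of P)
      rw [coe_evalRingHom] at this
      rw [this]
      congr 1
      ext i j
      simp [hP]
    rw [h1] at ht
    have h2 : LinearIndependent K (fun i => φ (v i t)) :=
      Matrix.linearIndependent_rows_of_det_ne_zero ht
    exact h2.of_comp φ

end LINE

open LINE in
/-- **Piece LINE.** -/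
theorem t_LINE : S_LINE := by
  classical
  intro K _ _ n S f h1 h2
  obtain ⟨X1, Y1, h1⟩ := h1
  obtain ⟨X2, Y2, h2, h3⟩ := h2
  -- (1)
  obtain ⟨i, j, hij⟩ : ∃ i j, ev f ![X1, Y1] i j ≠ 0 := by
    by_contra hcon
    push Not at hcon
    exact h1 (by ext i j; exact hcon i j)
  obtain ⟨p, hp⟩ := pm_ev f X2 Y2 (X1 - X2) (Y1 - Y2) i j
  have hp1 : p.eval 1 ≠ 0 := by
    rw [← hp 1]
    simpa using hij
  -- (2)
  obtain ⟨g, hg1, hg2, hg3⟩ := Submodule.exists_fun_fin_finrank_span_eq K
    {A : Matrix (Fin n) (Fin n) K | ∃ r ∈ S, A = ev r ![X2, Y2]}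
  choose r hrS hr using hg1
  obtain ⟨D2, hD2, hD2'⟩ := li_poly
    (fun k t => ev (r k) ![X2 + t • (X1 - X2), Y2 + t • (Y1 - Y2)])
    (fun k => pm_ev (r k) X2 Y2 (X1 - X2) (Y1 - Y2)) 0 (by
      have : (fun k => ev (r k) ![X2 + (0 : K) • (X1 - X2), Y2 + (0 : K) • (Y1 - Y2)]) = g := by
        funext k
        rw [zero_smul, zero_smul, add_zero, add_zero, hr k]
      rw [this]
      exact hg3)
  -- (3)
  let x : FreeAlgebra K (Fin 2) := FreeAlgebra.ι K 0
  let y : FreeAlgebra K (Fin 2) := FreeAlgebra.ι K 1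
  let w : Fin 2 → FreeAlgebra K (Fin 2) := ![x * (x * y - y * x) - (x * y - y * x) * x,
    y * (x * y - y * x) - (x * y - y * x) * y]
  have hw : ∀ X Y : Matrix (Fin n) (Fin n) K, (fun k => ev (w k) ![X, Y]) =
      ![br X (br X Y), br Y (br X Y)] := by
    intro X Y
    funext k
    fin_cases k
    · simp [w, ev, br, x, y]
    · simp [w, ev, br, x, y]
  obtain ⟨D3, hD3, hD3'⟩ := li_poly
    (fun k t => ev (w k) ![X2 + t • (X1 - X2), Y2 + t • (Y1 - Y2)])
    (fun k => pm_ev (w k) X2 Y2 (X1 - X2) (Y1 - Y2)) 0 (by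
      rw [hw, zero_smul, zero_smul, add_zero, add_zero]
      exact h3)
  -- choice of t
  have hne : p * D2 * D3 ≠ 0 := by
    refine mul_ne_zero (mul_ne_zero ?_ ?_) ?_
    · rintro rfl
      exact hp1 (by simp)
    · rintro rfl
      exact hD2 (by simp)
    · rintro rfl
      exact hD3 (by simp)
  obtain ⟨t, ht⟩ : ∃ t, (p * D2 * D3).eval t ≠ 0 := by
    by_contra hcon
    push Not at hcon
    exact hne (Polynomial.funext fun t => by rw [hcon t, eval_zero])
  rw [eval_mul, eval_mul] at ht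
  have ht3 : D3.eval t ≠ 0 := right_ne_zero_of_mul ht
  have ht2 : D2.eval t ≠ 0 := right_ne_zero_of_mul (left_ne_zero_of_mul ht)
  have ht1 : p.eval t ≠ 0 := left_ne_zero_of_mul (left_ne_zero_of_mul ht)
  refine ⟨X2 + t • (X1 - X2), Y2 + t • (Y1 - Y2), ?_, ?_, ?_⟩
  · intro h0
    rw [← hp t] at ht1
    change ev f ![X2 + t • (X1 - X2), Y2 + t • (Y1 - Y2)] i j ≠ 0 at ht1
    rw [h0] at ht1
    exact ht1 rfl
  · have h4 := hD2' t ht2
    have hcard : Fintype.card (Fin (Module.finrank K (Submodule.span K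
        {A : Matrix (Fin n) (Fin n) K | ∃ r ∈ S, A = ev r ![X2, Y2]}))) =
        Module.finrank K (Matrix (Fin n) (Fin n) K) := by
      rw [Fintype.card_fin]
      have : Submodule.span K {A : Matrix (Fin n) (Fin n) K | ∃ r ∈ S, A = ev r ![X2, Y2]} = ⊤ := h2
      rw [this, finrank_top]
    have h5 := h4.span_eq_top_of_card_eq_finrank' hcard
    rw [eq_top_iff, ← h5]
    refine Submodule.span_mono ?_
    rintro _ ⟨k, rfl⟩
    exact ⟨r k, hrS k, rfl⟩
  · have h4 := hD3' t ht3
    rw [hw] at h4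
    exact h4

end Pool.Agent.K1H41.SL
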