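import Pool.Agent.K1H41.SL.Stm

set_option autoImplicit false

namespace Pool.Agent.K1H41.SL

open Pool.Agent.K1H41.NF Matrix Polynomial

section PT

variable {K : Type} [Field K]

theorem exists_generic [Infinite K] {n : ℕ} {ι : Type} [Fintype ι] (c : ι → Fin n → K)
    (hc : ∀ a, c a ≠ 0) : ∃ β : Fin n → K, ∀ a, ∑ k, c a k * β k ≠ 0 := by
  classical
  let P : ι → K[X] := fun a => ∑ k, Polynomial.C (c a k) * Polynomial.X ^ (k : ℕ)
  have hP : ∀ a, P a ≠ 0 := by
    intro a h
    apply hc a
    funext k
    have := congrArg (fun p => Polynomial.coeff p (k : ℕ)) h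
    simp only [P, Polynomial.finsetSum_coeff, Polynomial.coeff_C_mul_X_pow,
      Polynomial.coeff_zero] at this
    rw [Finset.sum_eq_single k] at this
    · simpa using this
    · intro b _ hb
      rw [if_neg]
      intro h; exact hb (Fin.ext h.symm)
    · simp
  have hprod : ∏ a, P a ≠ 0 := Finset.prod_ne_zero_iff.mpr (fun a _ => hP a)
  obtain ⟨t, ht⟩ : ∃ t, (∏ a, P a).eval t ≠ 0 := by
    by_contra hcon
    push Not at hcon
    exact hprod (Polynomial.funext (fun t => by rw [hcon t, Polynomial.eval_zero]))
  refine ⟨fun k => t ^ (k : ℕ), fun a h => ht ?_⟩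
  rw [Polynomial.eval_prod]
  apply Finset.prod_eq_zero (Finset.mem_univ a)
  simpa [P, Polynomial.eval_finsetSum] using h

theorem br_affine {n : ℕ} (a b c d s t : K) (h : a * d - b * c = 1)
    (X Y : Matrix (Fin n) (Fin n) K) :
    (a • X + b • Y + s • 1) * (c • X + d • Y + t • 1) -
      (c • X + d • Y + t • 1) * (a • X + b • Y + s • 1) = X * Y - Y * X := by
  have e : (a • X + b • Y + s • 1) * (c • X + d • Y + t • 1) -
      (c • X + d • Y + t • 1) * (a • X + b • Y + s • 1) =
      (a * d - b * c) • (X * Y - Y * X) := by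
    simp only [add_mul, mul_add, smul_mul_assoc, mul_smul_comm, one_mul, mul_one]
    module
  rw [e, h, one_smul]

/-- `[x, y]` -/
noncomputable def fu (K : Type) [Field K] : FreeAlgebra K (Fin 2) :=
  FreeAlgebra.ι K 0 * FreeAlgebra.ι K 1 - FreeAlgebra.ι K 1 * FreeAlgebra.ι K 0

/-- `[[x, u], [y, u]]` -/
noncomputable def fw (K : Type) [Field K] : FreeAlgebra K (Fin 2) :=
  (FreeAlgebra.ι K 0 * fu K - fu K * FreeAlgebra.ι K 0) *
    (FreeAlgebra.ι K 1 * fu K - fu K * FreeAlgebra.ι K 1) -
  (FreeAlgebra.ι K 1 * fu K - fu K * FreeAlgebra.ι K 1) *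
    (FreeAlgebra.ι K 0 * fu K - fu K * FreeAlgebra.ι K 0)

theorem ev_fu {n : ℕ} (X Y : Matrix (Fin n) (Fin n) K) :
    ev (fu K) ![X, Y] = X * Y - Y * X := by
  unfold ev fu
  simp [FreeAlgebra.lift_ι_apply]

theorem ev_fw {n : ℕ} (X Y : Matrix (Fin n) (Fin n) K) :
    ev (fw K) ![X, Y] = (X * (X * Y - Y * X) - (X * Y - Y * X) * X) *
      (Y * (X * Y - Y * X) - (X * Y - Y * X) * Y) -
      (Y * (X * Y - Y * X) - (X * Y - Y * X) * Y) *
      (X * (X * Y - Y * X) - (X * Y - Y * X) * X) := by
  have h := ev_fu X Y
  unfold ev at *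
  unfold fw
  simp only [map_sub, map_mul, h, FreeAlgebra.lift_ι_apply]
  rfl

theorem fu_mem (n : ℕ) : fu K ∈ R0 K n := by
  intro a b c d s t h X Y
  rw [ev_fu, ev_fu, br_affine a b c d s t h]

theorem fw_mem (n : ℕ) : fw K ∈ R0 K n := by
  intro a b c d s t h X Y
  rw [ev_fw, ev_fw, br_affine a b c d s t h]
  set u := X * Y - Y * X with hu
  have e0 : (a • X + b • Y + s • 1) * u - u * (a • X + b • Y + s • 1) =
      a • (X * u - u * X) + b • (Y * u - u * Y) + (0 : K) • 1 := by
    simp only [add_mul, mul_add, smul_mul_assoc, mul_smul_comm, one_mul, mul_one]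
    module
  have e1 : (c • X + d • Y + t • 1) * u - u * (c • X + d • Y + t • 1) =
      c • (X * u - u * X) + d • (Y * u - u * Y) + (0 : K) • 1 := by
    simp only [add_mul, mul_add, smul_mul_assoc, mul_smul_comm, one_mul, mul_one]
    module
  rw [e0, e1, br_affine a b c d 0 0 h]

/-- the span is the image of the algebra -/
theorem spv_eq {n : ℕ} (S : Subalgebra K (FreeAlgebra K (Fin 2)))
    (X Y : Matrix (Fin n) (Fin n) K) :
    spv S X Y = Subalgebra.toSubmodule (S.map (FreeAlgebra.lift K ![X, Y])) := by
  unfold spv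
  apply le_antisymm
  · rw [Submodule.span_le]
    rintro A ⟨r, hr, rfl⟩
    exact ⟨r, hr, rfl⟩
  · rintro A ⟨r, hr, rfl⟩
    exact Submodule.subset_span ⟨r, hr, rfl⟩

theorem diag_sep {n : ℕ} (B : Subalgebra K (Matrix (Fin n) (Fin n) K)) (u : Fin n → K)
    (hu : Function.Injective u) (hB : Matrix.diagonal u ∈ B) (i : Fin n) :
    Matrix.single i i (1 : K) ∈ B := by
  classical
  have key : ∀ p : K[X], Matrix.diagonal (fun k => p.eval (u k)) ∈ B := by
    intro p
    have h1 : Polynomial.aeval (Matrix.diagonal u) p ∈ B := by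
      have := Polynomial.aeval_algHom_apply B.val ⟨Matrix.diagonal u, hB⟩ p
      have e : B.val ⟨Matrix.diagonal u, hB⟩ = Matrix.diagonal u := rfl
      rw [e] at this
      rw [this]
      exact Subtype.property _
    have h2 : Polynomial.aeval (Matrix.diagonal u) p = Matrix.diagonal (fun k => p.eval (u k)) := by
      have := Polynomial.aeval_algHom_apply (Matrix.diagonalAlgHom K (n := Fin n) (α := K)) u p
      have e : (Matrix.diagonalAlgHom K (n := Fin n) (α := K)) u = Matrix.diagonal u := rfl
      rw [e] at this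
      rw [this]
      change Matrix.diagonal _ = _
      congr 1
      funext k
      have h3 := Polynomial.aeval_algHom_apply (Pi.evalAlgHom K (fun _ : Fin n => K) k) u p
      have e3 : (Pi.evalAlgHom K (fun _ : Fin n => K) k) u = u k := rfl
      rw [e3] at h3
      rw [Polynomial.coe_aeval_eq_eval] at h3
      exact h3.symm
    rwa [h2] at h1
  have h := key (Lagrange.basis Finset.univ u i)
  convert h using 1
  ext a b
  rw [Matrix.single_apply, Matrix.diagonal_apply]
  by_cases hab : a = b
  · subst hab
    rw [if_pos rfl]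
    by_cases ha : a = i
    · subst ha
      rw [if_pos ⟨rfl, rfl⟩, Lagrange.eval_basis_self (fun x _ y _ h => hu h) (Finset.mem_univ a)]
    · rw [if_neg (fun h => ha h.1.symm), Lagrange.eval_basis_of_ne (Ne.symm ha) (Finset.mem_univ a)]
  · rw [if_neg hab, if_neg]
    rintro ⟨h1, h2⟩
    exact hab (h1.symm.trans h2)

theorem single_mem {n : ℕ} (B : Subalgebra K (Matrix (Fin n) (Fin n) K))
    (hd : ∀ i, Matrix.single i i (1 : K) ∈ B) (W : Matrix (Fin n) (Fin n) K) (hW : W ∈ B)
    (i j : Fin n) (h : W i j ≠ 0) : Matrix.single i j (1 : K) ∈ B := by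
  have h1 : Matrix.single i i (1 : K) * W * Matrix.single j j (1 : K) ∈ B :=
    B.mul_mem (B.mul_mem (hd i) hW) (hd j)
  have h2 : Matrix.single i j (1 : K) =
      (W i j)⁻¹ • (Matrix.single i i (1 : K) * W * Matrix.single j j (1 : K)) := by
    ext a b
    rw [Matrix.smul_apply]
    by_cases hb : b = j
    · subst hb
      rw [Matrix.mul_single_apply_same]
      by_cases ha : a = i
      · subst ha
        simp [h]
      · simp [ha, Matrix.single_apply, Ne.symm ha]
    · rw [Matrix.mul_single_apply_of_ne _ _ _ _ _ hb]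
      simp [Ne.symm hb]
  rw [h2]
  exact B.smul_mem h1 _

open Fin.CommRing

/-- cyclic shift -/
def P1 (K : Type) [Field K] (m : ℕ) : Matrix (Fin (m + 5)) (Fin (m + 5)) K :=
  fun i j => if j = i + 1 then 1 else 0

/-- the second matrix -/
def Y1 (m : ℕ) (β : Fin (m + 5) → K) : Matrix (Fin (m + 5)) (Fin (m + 5)) K :=
  fun i j => (if i = j + 1 then β j else 0) + (if j = i + 2 then 1 else 0)

theorem P1_mul (m : ℕ) (M : Matrix (Fin (m + 5)) (Fin (m + 5)) K) (i j : Fin (m + 5)) :
    (P1 K m * M) i j = M (i + 1) j := by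
  rw [Matrix.mul_apply, Finset.sum_eq_single (i + 1)]
  · simp [P1]
  · intro b _ hb
    simp [P1, hb]
  · simp

theorem mul_P1 (m : ℕ) (M : Matrix (Fin (m + 5)) (Fin (m + 5)) K) (i j : Fin (m + 5)) :
    (M * P1 K m) i j = M i (j - 1) := by
  rw [Matrix.mul_apply, Finset.sum_eq_single (j - 1)]
  · simp [P1]
  · intro b _ hb
    have : j ≠ b + 1 := by
      intro h
      apply hb
      rw [h]; ring
    simp [P1, this]
  · simp

theorem num_ne (m : ℕ) (k : ℕ) (hk : 0 < k) (hk' : k < m + 5) : ((k : ℕ) : Fin (m + 5)) ≠ 0 := by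
  intro h
  rw [Fin.natCast_eq_zero] at h
  exact absurd (Nat.le_of_dvd hk h) (by omega)

theorem comm_P1_Y1 (m : ℕ) (β : Fin (m + 5) → K) :
    P1 K m * Y1 m β - Y1 m β * P1 K m = Matrix.diagonal (fun i => β i - β (i - 1)) := by
  ext i j
  rw [Matrix.sub_apply, P1_mul, mul_P1, Matrix.diagonal_apply]
  unfold Y1
  have e1 : (i + 1 = j + 1) = (i = j) := by
    rw [eq_iff_iff]; exact add_left_inj 1
  have e2 : (j = i + 1 + 2) = (j - 1 = i + 2) := by
    rw [eq_iff_iff]
    constructor
    · intro h; rw [h]; ring
    · intro h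
      have : j = (j - 1) + 1 := by ring
      rw [this, h]; ring
  have e3 : (i = j - 1 + 1) = (i = j) := by
    rw [sub_add_cancel]
  simp only [e1, e2, e3]
  by_cases h : i = j
  · subst h
    simp
  · simp [h]

theorem comm_diag {n : ℕ} (M : Matrix (Fin n) (Fin n) K) (d : Fin n → K) (i j : Fin n) :
    (M * Matrix.diagonal d - Matrix.diagonal d * M) i j = M i j * (d j - d i) := by
  rw [Matrix.sub_apply, Matrix.mul_diagonal, Matrix.diagonal_mul]
  ring

theorem t_PT : S_PT := by
  intro K _ _ n hn hco
  classical
  obtain ⟨m, rfl⟩ : ∃ m, n = m + 5 := ⟨n - 5, by omega⟩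
  have n1 : (1 : Fin (m + 5)) ≠ 0 := by
    have := num_ne m 1 (by omega) (by omega); simpa using this
  have n2 : (2 : Fin (m + 5)) ≠ 0 := by
    have := num_ne m 2 (by omega) (by omega); simpa using this
  have n3 : (3 : Fin (m + 5)) ≠ 0 := by
    have := num_ne m 3 (by omega) (by omega); simpa using this
  have n4 : (4 : Fin (m + 5)) ≠ 0 := by
    have := num_ne m 4 (by omega) (by omega); simpa using this
  -- generic `β`
  obtain ⟨β, hβ1, hβ2⟩ : ∃ β : Fin (m + 5) → K,
      (∀ i j, i ≠ j → β i - β (i - 1) ≠ β j - β (j - 1)) ∧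
      (∀ i, 2 * β i - β (i - 1) + β (i + 3) - 2 * β (i + 2) ≠ 0) := by
    let c : ({p : Fin (m + 5) × Fin (m + 5) // p.1 ≠ p.2} ⊕ Fin (m + 5)) → Fin (m + 5) → K :=
      fun x => match x with
      | Sum.inl p => Pi.single p.1.1 1 - Pi.single (p.1.1 - 1) 1 - Pi.single p.1.2 1 +
          Pi.single (p.1.2 - 1) 1
      | Sum.inr i => (2 : K) • Pi.single i 1 - Pi.single (i - 1) 1 + Pi.single (i + 3) 1 -
          (2 : K) • Pi.single (i + 2) 1
    obtain ⟨β, hβ⟩ := exists_generic c (by
      rintro (⟨⟨i, j⟩, hij⟩ | i)
      · intro h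
        simp only at hij
        by_cases h1 : i = j - 1
        · have h2 := congrFun h j
          have a1 : j ≠ i := Ne.symm hij
          have a2 : j ≠ i - 1 := by
            intro h3
            apply n2
            have : j = j - 2 := by
              conv_lhs => rw [h3, h1]
              ring
            calc (2 : Fin (m + 5)) = j - (j - 2) := by ring
              _ = 0 := by rw [← this]; ring
          have a3 : j ≠ j - 1 := by
            intro h3
            apply n1
            calc (1 : Fin (m + 5)) = j - (j - 1) := by ring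
              _ = 0 := by rw [← h3]; ring
          simp [c, Pi.single_apply, a1, a2, a3] at h2
        · have h2 := congrFun h i
          have a1 : i ≠ i - 1 := by
            intro h3
            apply n1
            calc (1 : Fin (m + 5)) = i - (i - 1) := by ring
              _ = 0 := by rw [← h3]; ring
          simp [c, Pi.single_apply, a1, hij, h1] at h2
      · intro h
        have h2 := congrFun h (i + 3)
        have a1 : i + 3 ≠ i := by
          intro h3
          apply n3
          calc (3 : Fin (m + 5)) = (i + 3) - i := by ring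
            _ = 0 := by rw [h3]; ring
        have a2 : i + 3 ≠ i - 1 := by
          intro h3
          apply n4
          calc (4 : Fin (m + 5)) = (i + 3) - (i - 1) := by ring
            _ = 0 := by rw [h3]; ring
        have a3 : i + 3 ≠ i + 2 := by
          intro h3
          apply n1
          calc (1 : Fin (m + 5)) = (i + 3) - (i + 2) := by ring
            _ = 0 := by rw [h3]; ring
        simp only [c, Pi.sub_apply, Pi.add_apply, Pi.smul_apply, Pi.single_apply, a1, a2, a3,
          if_false, if_true, Pi.zero_apply, smul_zero, sub_zero, zero_sub, zero_add, sub_self,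
          one_ne_zero] at h2)
    refine ⟨β, ?_, ?_⟩
    · intro i j hij h
      apply hβ (Sum.inl ⟨(i, j), hij⟩)
      simp only [c, Pi.sub_apply, Pi.add_apply, sub_mul, add_mul, Finset.sum_add_distrib,
        Finset.sum_sub_distrib, Pi.single_apply, ite_mul, one_mul, zero_mul,
        Finset.sum_ite_eq', Finset.sum_ite_eq, Finset.mem_univ, if_true]
      linear_combination h
    · intro i h
      apply hβ (Sum.inr i)
      simp only [c, Pi.sub_apply, Pi.add_apply, Pi.smul_apply, sub_mul, add_mul,
        Finset.sum_add_distrib, smul_eq_mul, mul_assoc, ← Finset.mul_sum,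
        Finset.sum_sub_distrib, Pi.single_apply, ite_mul, one_mul, zero_mul,
        Finset.sum_ite_eq', Finset.sum_ite_eq, Finset.mem_univ, if_true]
      linear_combination h
  set u : Fin (m + 5) → K := fun i => β i - β (i - 1) with hu
  have hinj : Function.Injective u := by
    intro i j h
    by_contra hij
    exact hβ1 i j hij h
  have hbr : br (P1 K m) (Y1 m β) = Matrix.diagonal u := comm_P1_Y1 m β
  have hz0 : ∀ i j, (P1 K m * Matrix.diagonal u - Matrix.diagonal u * P1 K m) i j =
      P1 K m i j * (u j - u i) := comm_diag _ _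
  have hz1 : ∀ i j, (Y1 m β * Matrix.diagonal u - Matrix.diagonal u * Y1 m β) i j =
      Y1 m β i j * (u j - u i) := comm_diag _ _
  have y02 : ∀ i : Fin (m + 5), Y1 m β i (i + 2) = 1 := by
    intro i
    have : i ≠ i + 2 + 1 := by
      intro h
      apply n3
      calc (3 : Fin (m + 5)) = (i + 2 + 1) - i := by ring
        _ = 0 := by rw [← h]; ring
    unfold Y1
    rw [if_neg this, if_pos rfl, zero_add]
  refine ⟨P1 K m, Y1 m β, ?_, ?_⟩
  · rw [spv_eq]
    set B := (R0 K (m + 5)).map (FreeAlgebra.lift K ![P1 K m, Y1 m β]) with hB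
    have hdiag : Matrix.diagonal u ∈ B := by
      rw [← hbr]
      refine ⟨fu K, fu_mem _, ?_⟩
      exact ev_fu _ _
    have hw : (P1 K m * Matrix.diagonal u - Matrix.diagonal u * P1 K m) *
        (Y1 m β * Matrix.diagonal u - Matrix.diagonal u * Y1 m β) -
        (Y1 m β * Matrix.diagonal u - Matrix.diagonal u * Y1 m β) *
        (P1 K m * Matrix.diagonal u - Matrix.diagonal u * P1 K m) ∈ B := by
      refine ⟨fw K, fw_mem _, ?_⟩
      have := ev_fw (P1 K m) (Y1 m β)
      have h2 : P1 K m * Y1 m β - Y1 m β * P1 K m = Matrix.diagonal u := hbr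
      rw [h2] at this
      exact this
    have hd := diag_sep B u hinj hdiag
    have h3 : ∀ i : Fin (m + 5), Matrix.single i (i + 3) (1 : K) ∈ B := by
      intro i
      apply single_mem B hd _ hw
      rw [Matrix.sub_apply, Matrix.mul_apply, Matrix.mul_apply,
        Finset.sum_eq_single (i + 1), Finset.sum_eq_single (i + 2)]
      · rw [hz0, hz1, hz1, hz0, y02 i]
        have e1 : Y1 m β (i + 1) (i + 3) = 1 := by
          have : i + 3 = (i + 1) + 2 := by ring
          rw [this]; exact y02 _
        have e2 : P1 K m i (i + 1) = 1 := by simp [P1]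
        have e3 : P1 K m (i + 2) (i + 3) = 1 := by
          have : i + 3 = i + 2 + 1 := by ring
          rw [this]; simp [P1]
        rw [e1, e2, e3]
        have h4 : 1 * (u (i + 1) - u i) * (1 * (u (i + 3) - u (i + 1))) -
            1 * (u (i + 2) - u i) * (1 * (u (i + 3) - u (i + 2))) =
            (u (i + 1) - u (i + 2)) * (u i + u (i + 3) - u (i + 1) - u (i + 2)) := by ring
        rw [h4]
        apply mul_ne_zero
        · rw [sub_ne_zero]
          intro h
          have := hinj h
          apply n1
          calc (1 : Fin (m + 5)) = (i + 2) - (i + 1) := by ring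
            _ = 0 := by rw [← this]; ring
        · have h5 := hβ2 i
          have e5 : u i + u (i + 3) - u (i + 1) - u (i + 2) =
              2 * β i - β (i - 1) + β (i + 3) - 2 * β (i + 2) := by
            simp only [hu]
            have b1 : i + 3 - 1 = i + 2 := by ring
            have b2 : i + 1 - 1 = i := by ring
            have b3 : i + 2 - 1 = i + 1 := by ring
            rw [b1, b2, b3]
            ring
          rw [e5]
          exact h5
      · intro b _ hb
        rw [hz0 b (i + 3)]
        have : P1 K m b (i + 3) = 0 := by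
          unfold P1
          rw [if_neg]
          intro h
          apply hb
          have : b = (b + 1) - 1 := by ring
          rw [this, ← h]; ring
        rw [this]; ring
      · simp
      · intro b _ hb
        rw [hz0 i b]
        have : P1 K m i b = 0 := by
          unfold P1
          rw [if_neg hb]
        rw [this]; ring
      · simp
    have h4 : ∀ (k : ℕ) (i : Fin (m + 5)),
        Matrix.single i (i + ((3 * k : ℕ) : Fin (m + 5))) (1 : K) ∈ B := by
      intro k
      induction k with
      | zero => intro i; simpa using hd i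
      | succ k ih =>
        intro i
        have := B.mul_mem (ih i) (h3 (i + ((3 * k : ℕ) : Fin (m + 5))))
        rw [Matrix.single_mul_single_same, mul_one] at this
        convert this using 2
        push_cast
        ring
    obtain ⟨q, -, hq⟩ := Nat.exists_mul_mod_eq_one_of_coprime hco (by omega)
    have h5 : ∀ i j : Fin (m + 5), Matrix.single i j (1 : K) ∈ B := by
      intro i j
      have := h4 (q * (j - i).val) i
      convert this using 2
      have e : ((3 * (q * (j - i).val) : ℕ) : Fin (m + 5)) = j - i := by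
        have e1 : ((3 * q : ℕ) : Fin (m + 5)) = 1 := by
          apply Fin.ext
          rw [Fin.val_natCast, hq]
          rfl
        have e2 : (((j - i).val : ℕ) : Fin (m + 5)) = j - i := Fin.cast_val_eq_self _
        calc ((3 * (q * (j - i).val) : ℕ) : Fin (m + 5))
            = ((3 * q : ℕ) : Fin (m + 5)) * (((j - i).val : ℕ) : Fin (m + 5)) := by
              push_cast; ring
          _ = j - i := by rw [e1, e2, one_mul]
      rw [e]; ring
    rw [eq_top_iff]
    rintro A -
    rw [Matrix.matrix_eq_sum_single A]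
    refine Submodule.sum_mem _ (fun i _ => Submodule.sum_mem _ (fun j _ => ?_))
    have : Matrix.single i j (A i j) = A i j • Matrix.single i j (1 : K) := by
      rw [Matrix.smul_single, smul_eq_mul, mul_one]
    rw [this]
    exact B.smul_mem (h5 i j) _
  · rw [LinearIndependent.pair_iff]
    intro s t hst
    rw [hbr] at hst
    have c1 := congrFun (congrFun hst 0) 2
    have c2 := congrFun (congrFun hst 0) 1
    have hb0 : br (P1 K m) (Matrix.diagonal u) = P1 K m * Matrix.diagonal u -
      Matrix.diagonal u * P1 K m := rfl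
    have hb1 : br (Y1 m β) (Matrix.diagonal u) = Y1 m β * Matrix.diagonal u -
      Matrix.diagonal u * Y1 m β := rfl
    rw [hb0, hb1] at c1 c2
    rw [Matrix.add_apply, Matrix.smul_apply, Matrix.smul_apply, hz0, hz1] at c1 c2
    have d1 : P1 K m 0 2 = 0 := by
      unfold P1
      rw [if_neg]
      intro h
      apply n1
      calc (1 : Fin (m + 5)) = 2 - (0 + 1) := by ring
        _ = 0 := by rw [← h]; ring
    have d2 : P1 K m 0 1 = 1 := by
      unfold P1
      rw [if_pos (by ring)]
    have d3 : Y1 m β 0 2 = 1 := by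
      have := y02 0
      rwa [zero_add] at this
    rw [d1, d3] at c1
    rw [d2] at c2
    have hne : u 2 - u 0 ≠ 0 := by
      rw [sub_ne_zero]
      intro h
      exact n2 (hinj h)
    have hne1 : u 1 - u 0 ≠ 0 := by
      rw [sub_ne_zero]
      intro h
      exact n1 (hinj h)
    have ht : t = 0 := by
      have : t * (u 2 - u 0) = 0 := by
        have c3 : s • (0 * (u 2 - u 0)) + t • (1 * (u 2 - u 0)) = (0 : K) := c1
        simpa using c3
      exact (mul_eq_zero.mp this).resolve_right hne
    subst ht
    refine ⟨?_, rfl⟩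
    have c4 : s • (1 * (u 1 - u 0)) + (0 : K) • (Y1 m β 0 1 * (u 1 - u 0)) = (0 : K) := c2
    have : s * (u 1 - u 0) = 0 := by simpa using c4
    exact (mul_eq_zero.mp this).resolve_right hne1

end PT

end Pool.Agent.K1H41.SL
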