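import Pool.Agent.K1H41.SL.Stm
import Pool.Agent.Helper58.EN.JX

/-!
# Scalar valued polynomials from Razmyslov's construction: `t_RAZ`
-/

set_option autoImplicit false

namespace Pool.Agent.K1H41.SL

open Pool.Agent.K1H41.NF Matrix

section raz

variable {K : Type} [Field K] {n : ℕ}

/-- evaluation as a ring homomorphism -/
noncomputable def evh (X Y : Matrix (Fin n) (Fin n) K) :
    FreeAlgebra K (Fin 2) →ₐ[K] Matrix (Fin n) (Fin n) K := FreeAlgebra.lift K ![X, Y]

lemma evh_apply (X Y : Matrix (Fin n) (Fin n) K) (r : FreeAlgebra K (Fin 2)) :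
    evh X Y r = ev r ![X, Y] := rfl

/-- the functional `lam` is prescribed by a scalar valued polynomial -/
def PP (S : Subalgebra K (FreeAlgebra K (Fin 2))) (X0 Y0 : Matrix (Fin n) (Fin n) K)
    (lam : Matrix (Fin n) (Fin n) K →ₗ[K] K) : Prop :=
  ∃ (T : FreeAlgebra K (Fin 2) → FreeAlgebra K (Fin 2))
    (L : Matrix (Fin n) (Fin n) K → Matrix (Fin n) (Fin n) K →
      (Matrix (Fin n) (Fin n) K →ₗ[K] K)),
    (∀ (w : FreeAlgebra K (Fin 2)) (X Y : Matrix (Fin n) (Fin n) K),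
      ev (T w) ![X, Y] = (L X Y (ev w ![X, Y])) • 1) ∧
    L X0 Y0 = lam ∧
    ∀ X Y X' Y' : Matrix (Fin n) (Fin n) K,
      (∀ r ∈ S, ev r ![X', Y'] = ev r ![X, Y]) → L X' Y' = L X Y

/-- the good functionals -/
def Lam (S : Subalgebra K (FreeAlgebra K (Fin 2))) (X0 Y0 : Matrix (Fin n) (Fin n) K) :
    Submodule K (Matrix (Fin n) (Fin n) K →ₗ[K] K) where
  carrier := {lam | PP S X0 Y0 lam}
  zero_mem' := by
    refine ⟨fun _ => 0, fun _ _ => 0, fun w X Y => ?_, rfl, fun _ _ _ _ _ => rfl⟩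
    show evh X Y 0 = _
    simp
  add_mem' := by
    rintro l l' ⟨T, L, h1, rfl, h3⟩ ⟨T', L', h1', rfl, h3'⟩
    refine ⟨fun w => T w + T' w, fun X Y => L X Y + L' X Y, fun w X Y => ?_, rfl,
      fun X Y X' Y' h => ?_⟩
    · show evh X Y (T w + T' w) = _
      rw [map_add, evh_apply, evh_apply, h1, h1', LinearMap.add_apply, add_smul]
    · show L X' Y' + L' X' Y' = L X Y + L' X Y
      rw [h3 X Y X' Y' h, h3' X Y X' Y' h]
  smul_mem' := by
    rintro c l ⟨T, L, h1, rfl, h3⟩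
    refine ⟨fun w => c • T w, fun X Y => c • L X Y, fun w X Y => ?_, rfl, fun X Y X' Y' h => ?_⟩
    · show evh X Y (c • T w) = _
      rw [map_smul, evh_apply, h1, LinearMap.smul_apply, smul_smul, smul_eq_mul]
    · show c • L X' Y' = c • L X Y
      rw [h3 X Y X' Y' h]

lemma Lam_mul {S : Subalgebra K (FreeAlgebra K (Fin 2))} {X0 Y0 : Matrix (Fin n) (Fin n) K}
    {lam : Matrix (Fin n) (Fin n) K →ₗ[K] K} (h : lam ∈ Lam S X0 Y0)
    (r r' : FreeAlgebra K (Fin 2)) (hr : r ∈ S) (hr' : r' ∈ S) :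
    lam ∘ₗ (LinearMap.mulLeft K (ev r ![X0, Y0])) ∘ₗ (LinearMap.mulRight K (ev r' ![X0, Y0])) ∈
      Lam S X0 Y0 := by
  obtain ⟨T, L, h1, rfl, h3⟩ := h
  refine ⟨fun w => T (r * (w * r')), fun X Y => L X Y ∘ₗ (LinearMap.mulLeft K (ev r ![X, Y])) ∘ₗ
    (LinearMap.mulRight K (ev r' ![X, Y])), fun w X Y => ?_, rfl, fun X Y X' Y' h => ?_⟩
  · show ev (T (r * (w * r'))) ![X, Y] = _
    rw [h1, LinearMap.comp_apply, LinearMap.comp_apply, LinearMap.mulLeft_apply,
      LinearMap.mulRight_apply]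
    congr 2
    show evh X Y (r * (w * r')) = _
    rw [map_mul, map_mul]
    rfl
  · show L X' Y' ∘ₗ (LinearMap.mulLeft K (ev r ![X', Y'])) ∘ₗ
      (LinearMap.mulRight K (ev r' ![X', Y'])) = L X Y ∘ₗ (LinearMap.mulLeft K (ev r ![X, Y])) ∘ₗ
      (LinearMap.mulRight K (ev r' ![X, Y]))
    rw [h3 X Y X' Y' h, h r hr, h r' hr']

lemma Lam_mul' {S : Subalgebra K (FreeAlgebra K (Fin 2))} {X0 Y0 : Matrix (Fin n) (Fin n) K}
    (hS : spv S X0 Y0 = ⊤) {lam : Matrix (Fin n) (Fin n) K →ₗ[K] K} (h : lam ∈ Lam S X0 Y0)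
    (A B : Matrix (Fin n) (Fin n) K) :
    lam ∘ₗ (LinearMap.mulLeft K A) ∘ₗ (LinearMap.mulRight K B) ∈ Lam S X0 Y0 := by
  have hA : A ∈ spv S X0 Y0 := by rw [hS]; trivial
  have hB : B ∈ spv S X0 Y0 := by rw [hS]; trivial
  unfold spv at hA hB
  induction hA using Submodule.span_induction with
  | mem A hA =>
    obtain ⟨r, hr, rfl⟩ := hA
    induction hB using Submodule.span_induction with
    | mem B hB =>
      obtain ⟨r', hr', rfl⟩ := hB
      exact Lam_mul h r r' hr hr'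
    | zero =>
      have e : lam ∘ₗ (LinearMap.mulLeft K (ev r ![X0, Y0])) ∘ₗ (LinearMap.mulRight K 0) = 0 := by
        ext1 w
        simp
      rw [e]
      exact Submodule.zero_mem _
    | add B B' _ _ h1 h2 =>
      have e : lam ∘ₗ (LinearMap.mulLeft K (ev r ![X0, Y0])) ∘ₗ (LinearMap.mulRight K (B + B')) =
          lam ∘ₗ (LinearMap.mulLeft K (ev r ![X0, Y0])) ∘ₗ (LinearMap.mulRight K B) +
          lam ∘ₗ (LinearMap.mulLeft K (ev r ![X0, Y0])) ∘ₗ (LinearMap.mulRight K B') := by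
        ext1 w
        simp [mul_add]
      rw [e]
      exact Submodule.add_mem _ h1 h2
    | smul c B _ h1 =>
      have e : lam ∘ₗ (LinearMap.mulLeft K (ev r ![X0, Y0])) ∘ₗ (LinearMap.mulRight K (c • B)) =
          c • (lam ∘ₗ (LinearMap.mulLeft K (ev r ![X0, Y0])) ∘ₗ (LinearMap.mulRight K B)) := by
        ext1 w
        simp
      rw [e]
      exact Submodule.smul_mem _ _ h1
  | zero =>
    have e : lam ∘ₗ (LinearMap.mulLeft K (0 : Matrix (Fin n) (Fin n) K)) ∘ₗ
        (LinearMap.mulRight K B) = 0 := by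
      ext1 w
      simp
    rw [e]
    exact Submodule.zero_mem _
  | add A A' _ _ h1 h2 =>
    have e : lam ∘ₗ (LinearMap.mulLeft K (A + A')) ∘ₗ (LinearMap.mulRight K B) =
        lam ∘ₗ (LinearMap.mulLeft K A) ∘ₗ (LinearMap.mulRight K B) +
        lam ∘ₗ (LinearMap.mulLeft K A') ∘ₗ (LinearMap.mulRight K B) := by
      ext1 w
      simp [add_mul]
    rw [e]
    exact Submodule.add_mem _ h1 h2
  | smul c A _ h1 =>
    have e : lam ∘ₗ (LinearMap.mulLeft K (c • A)) ∘ₗ (LinearMap.mulRight K B) =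
        c • (lam ∘ₗ (LinearMap.mulLeft K A) ∘ₗ (LinearMap.mulRight K B)) := by
      ext1 w
      simp
    rw [e]
    exact Submodule.smul_mem _ _ h1

lemma Lam_top {S : Subalgebra K (FreeAlgebra K (Fin 2))} {X0 Y0 : Matrix (Fin n) (Fin n) K}
    (hS : spv S X0 Y0 = ⊤) {l0 : Matrix (Fin n) (Fin n) K →ₗ[K] K} (h : l0 ∈ Lam S X0 Y0)
    (h0 : l0 ≠ 0) (lam : Matrix (Fin n) (Fin n) K →ₗ[K] K) : lam ∈ Lam S X0 Y0 := by
  obtain ⟨i, j, hij⟩ : ∃ i j, l0 (Matrix.single i j 1) ≠ 0 := by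
    by_contra hcon
    push Not at hcon
    apply h0
    ext1 w
    rw [Matrix.matrix_eq_sum_single w, map_sum, LinearMap.zero_apply]
    refine Finset.sum_eq_zero fun a _ => ?_
    rw [map_sum]
    refine Finset.sum_eq_zero fun b _ => ?_
    have e : Matrix.single a b (w a b) = (w a b) • Matrix.single a b (1 : K) := by
      simp
    rw [e, map_smul, hcon, smul_zero]
  have hco : ∀ a b : Fin n, Matrix.entryLinearMap K K a b ∈ Lam S X0 Y0 := by
    intro a b
    have h1 := Submodule.smul_mem _ (l0 (Matrix.single i j 1))⁻¹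
      (Lam_mul' hS h (Matrix.single i a 1) (Matrix.single b j 1))
    have e : (l0 (Matrix.single i j 1))⁻¹ • (l0 ∘ₗ (LinearMap.mulLeft K (Matrix.single i a 1)) ∘ₗ
        (LinearMap.mulRight K (Matrix.single b j 1))) = Matrix.entryLinearMap K K a b := by
      ext1 w
      rw [LinearMap.smul_apply, LinearMap.comp_apply, LinearMap.comp_apply,
        LinearMap.mulLeft_apply, LinearMap.mulRight_apply, ← mul_assoc,
        Matrix.single_mul_mul_single, one_mul, mul_one]
      have e : Matrix.single i j (w a b) = (w a b) • Matrix.single i j (1 : K) := by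
        simp
      rw [e, map_smul, smul_eq_mul, smul_eq_mul]
      show _ = w a b
      field_simp
    rw [e] at h1
    exact h1
  have e : lam = ∑ a, ∑ b, lam (Matrix.single a b 1) • Matrix.entryLinearMap K K a b := by
    ext1 w
    conv_lhs => rw [Matrix.matrix_eq_sum_single w, map_sum]
    rw [LinearMap.sum_apply]
    refine Finset.sum_congr rfl fun a _ => ?_
    rw [map_sum, LinearMap.sum_apply]
    refine Finset.sum_congr rfl fun b _ => ?_
    have e : Matrix.single a b (w a b) = (w a b) • Matrix.single a b (1 : K) := by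
      simp
    rw [e, map_smul, LinearMap.smul_apply, smul_eq_mul, smul_eq_mul, mul_comm]
    rfl
  rw [e]
  exact Submodule.sum_mem _ fun a _ => Submodule.sum_mem _ fun b _ =>
    Submodule.smul_mem _ _ (hco a b)

open Pool.Agent.Helper58.EN in
lemma Lam_ne {S : Subalgebra K (FreeAlgebra K (Fin 2))} {X0 Y0 : Matrix (Fin n) (Fin n) K}
    (hn : 0 < n) (hS : spv S X0 Y0 = ⊤) : ∃ l0 ∈ Lam S X0 Y0, l0 ≠ 0 := by
  let φ : S →+* Matrix (Fin n) (Fin n) K := ((evh X0 Y0).comp S.val).toRingHom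
  have hφ : Submodule.span K (Set.range φ) = ⊤ := by
    rw [← hS]
    unfold spv
    congr 1
    ext A
    constructor
    · rintro ⟨r, rfl⟩
      exact ⟨r.1, r.2, rfl⟩
    · rintro ⟨r, hr, rfl⟩
      exact ⟨⟨r, hr⟩, rfl⟩
  obtain ⟨m, hm⟩ : ∃ m, n * n = m + 1 :=
    ⟨n * n - 1, by have := Nat.mul_pos hn hn; omega⟩
  let i0 : Fin n := ⟨0, hn⟩
  obtain ⟨b, hb0, hb⟩ := rz_basis hm φ hφ i0
  choose! u v huv using hb
  obtain ⟨y, hy⟩ := rz_ne hm φ hφ b
  let X : Fin (m+1) → S := fun i => if i = 0 then 0 else u i * v i - v i * u i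
  let XF : Fin (m+1) → FreeAlgebra K (Fin 2) := fun i => (X i : FreeAlgebra K (Fin 2))
  let yF : Fin (m+1) → FreeAlgebra K (Fin 2) := fun i => (y i : FreeAlgebra K (Fin 2))
  let L : Matrix (Fin n) (Fin n) K → Matrix (Fin n) (Fin n) K →
      (Matrix (Fin n) (Fin n) K →ₗ[K] K) := fun A B =>
    (Matrix.entryLinearMap K K i0 i0) ∘ₗ
      (rzTl (fun i => ev (XF i) ![A, B]) (fun i => ev (yF i) ![A, B]))
  have hL : ∀ (A B w : Matrix (Fin n) (Fin n) K),
      rzT (fun i => ev (XF i) ![A, B]) (fun i => ev (yF i) ![A, B]) w =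
        (L A B w) • (1 : Matrix (Fin n) (Fin n) K) := by
    intro A B w
    obtain ⟨l, hl, -⟩ := rz_alt (K := K) (j := n) (m := m) hm.le
      (fun i => ev (XF i) ![A, B]) (fun i => ev (yF i) ![A, B]) (by
        intro i hi
        show (evh A B (XF i)).trace = 0
        simp only [XF, X, if_neg hi]
        rw [AddSubgroupClass.coe_sub, MulMemClass.coe_mul, MulMemClass.coe_mul, map_sub, map_mul,
          map_mul, Matrix.trace_sub, Matrix.trace_mul_comm, sub_self])
    have h1 : L A B w = l w := by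
      show (rzT (fun i => ev (XF i) ![A, B]) (fun i => ev (yF i) ![A, B]) w) i0 i0 = l w
      rw [hl, Matrix.algebraMap_matrix_apply, if_pos rfl]
      rfl
    rw [hl, h1, Algebra.algebraMap_eq_smul_one]
  refine ⟨L X0 Y0, ⟨fun w => rzT XF yF w, L, fun w A B => ?_, rfl, fun A B A' B' h => ?_⟩, ?_⟩
  · rw [← hL]
    exact rz_map (evh A B).toRingHom XF yF w
  · have h1 : (fun i => ev (XF i) ![A', B']) = fun i => ev (XF i) ![A, B] := by
      funext i
      exact h _ (X i).2
    have h2 : (fun i => ev (yF i) ![A', B']) = fun i => ev (yF i) ![A, B] := by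
      funext i
      exact h _ (y i).2
    simp only [L]
    rw [h1, h2]
  · intro h0
    apply hy
    have h1 : (b : Fin (m+1) → Matrix (Fin n) (Fin n) K) =
        Function.update (fun i => φ (X i)) 0 (Matrix.single i0 i0 1) := by
      funext i
      by_cases hi : i = 0
      · subst hi; simp [hb0]
      · rw [Function.update_of_ne hi]
        simp only [X, if_neg hi]
        exact huv i hi
    rw [h1, ← mul_one (rzCap _ _), rz_trace]
    have h2 := hL X0 Y0 1
    rw [h0, LinearMap.zero_apply, zero_smul] at h2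
    have h3 : rzT (fun i => φ (X i)) (fun i => φ (y i)) 1 = 0 := h2
    rw [h3, mul_zero, Matrix.trace_zero]

end raz

theorem t_RAZ : S_RAZ := by
  intro K _ n hn S X0 Y0 hS lam
  obtain ⟨l0, h1, h2⟩ := Lam_ne hn hS
  exact Lam_top hS h1 h2 lam

end Pool.Agent.K1H41.SL
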